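import Mathlib

/-!
# Project HG: definitions and statements (fields, derivations, matrices)
-/

set_option autoImplicit false

open Matrix

namespace Pool.Agent.Y119.HG

/-- the index set of a symplectic basis -/
abbrev S (m : ℕ) := Fin m ⊕ Fin m

/-- the standard alternating form on rows: `⟨x, y⟩ = x Ω yᵀ` -/
def Om (m : ℕ) (L : Type) [Field L] : Matrix (S m) (S m) L := fromBlocks 0 1 (-1) 0

/-- the elements `[[X, Z], [0, -Xᵀ]]` of the symplectic Lie algebra (`Z` symmetric) -/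
def Ysp {m : ℕ} {L : Type} [Field L] (X Z : Matrix (Fin m) (Fin m) L) : Matrix (S m) (S m) L := fromBlocks X Z 0 (-Xᵀ)

/-- the shift matrix and the antidiagonal form, over any field -/
def Nn (n : ℕ) (L : Type) [Field L] : Matrix (Fin n) (Fin n) L := Matrix.of fun i j => if (j : ℕ) = i + 1 then 1 else 0
def Jn (n : ℕ) (L : Type) [Field L] : Matrix (Fin n) (Fin n) L :=
  Matrix.of fun i j => if (i : ℕ) + j + 1 = n then (-1) ^ (i : ℕ) else 0

/-- the change of basis: row `inl i` is `e_i`, row `inr j` is `(-1)^j e_(2m-1-j)` -/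
def Rm (m : ℕ) (L : Type) [Field L] : Matrix (S m) (Fin (2 * m)) L :=
  Matrix.of fun s l => match s with
    | Sum.inl i => if (l : ℕ) = i then 1 else 0
    | Sum.inr j => if (j : ℕ) + l + 1 = 2 * m then (-1) ^ (j : ℕ) else 0

/-- the entries of matrices with coefficients in a small field `k` have derivative zero; `Dat` collects what is used of
the generic symplectic matrix `G` and the limit matrix `T` -/
structure Dat (k L : Type) [Field k] [Field L] [Algebra k L] (m : ℕ) {ι : Type} [Fintype ι] [DecidableEq ι]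
    (G : Matrix (S m) (S m) L) (T : Matrix (S m) ι L) : Prop where
  gen : ∀ X Z : Matrix (Fin m) (Fin m) L, Zᵀ = Z → ∃ D : Derivation k L L, G.map D = Ysp X Z * G
  lim : ∃ π : Matrix (S m) ι L →ₗ[L] (Fin (m + 1) → L), ∀ D : Derivation k L L, π (T.map D) = 0 →
    ∃ z : L, T.map D = z • T
  invG : ∃ G' : Matrix (S m) (S m) L, G * G' = 1
  invT : ∃ T' : Matrix ι (S m) L, T * T' = 1 ∧ T' * T = 1

/-- DER: derivations of `k(x)` extend to `L` in characteristic zero -/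
def T_DER : Prop := ∀ (k L : Type) [Field k] [Field L] [Algebra k L] [CharZero L] (ι : Type) [Fintype ι] (x v : ι → L),
  (∀ P : MvPolynomial ι k, MvPolynomial.aeval x P = 0 → ∑ i, MvPolynomial.aeval x (MvPolynomial.pderiv i P) * v i = 0) →
  ∃ D : Derivation k L L, ∀ i, D (x i) = v i

/-- TAN: a matrix whose relations over `k` hold on the symplectic group has derivations in all directions of the
symplectic Lie algebra -/
def T_TAN : Prop := ∀ (k L : Type) [Field k] [Field L] [Algebra k L] [CharZero L] (m : ℕ) (G : Matrix (S m) (S m) L),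
  G * Om m L * Gᵀ = Om m L →
  (∀ P : MvPolynomial (S m × S m) k, MvPolynomial.aeval (fun x => G x.1 x.2) P = 0 →
    ∀ g : Matrix (S m) (S m) L, g * Om m L * gᵀ = Om m L → MvPolynomial.aeval (fun x => g x.1 x.2) P = 0) →
  ∀ P : MvPolynomial (S m × S m) k, MvPolynomial.aeval (fun x => G x.1 x.2) P = 0 →
    ∀ X Z : Matrix (Fin m) (Fin m) L, Zᵀ = Z →
      ∑ i, MvPolynomial.aeval (fun x : S m × S m => G x.1 x.2) (MvPolynomial.pderiv i P) * (Ysp X Z * G) i.1 i.2 = 0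

/-- LIM: the limit matrix has at most `m + 1` parameters besides scalars -/
def T_LIM : Prop := ∀ (k L : Type) [Field k] [Field L] [Algebra k L] [CharZero L] (m : ℕ), 1 ≤ m →
  ∀ (T : Matrix (Fin (2 * m)) (Fin (2 * m)) L) (M Q : Matrix (Fin (2 * m)) (Fin (2 * m)) k) (s κ : L), T.det ≠ 0 → s ≠ 0 →
  T * M.map (algebraMap k L) = s • (Nn (2 * m) L * T) → Tᵀ * Jn (2 * m) L * T = κ • Q.map (algebraMap k L) →
  ∃ π : Matrix (Fin (2 * m)) (Fin (2 * m)) L →ₗ[L] (Fin (m + 1) → L), ∀ D : Derivation k L L, π (T.map D) = 0 →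
    ∃ z : L, T.map D = z • T

/-- KER: more than `m + 1` directions give a derivation which acts on `T` by a scalar -/
def T_KER : Prop := ∀ (k L : Type) [Field k] [Field L] [Algebra k L] (m : ℕ) (ι : Type) [Fintype ι] [DecidableEq ι]
  (G : Matrix (S m) (S m) L) (T : Matrix (S m) ι L), Dat k L m G T →
  ∀ V : Submodule L (Matrix (Fin m) (Fin m) L × Matrix (Fin m) (Fin m) L), (∀ p ∈ V, p.2ᵀ = p.2) →
  m + 2 ≤ Module.finrank L V → ∃ p ∈ V, p ≠ 0 ∧ ∃ (D : Derivation k L L) (z : L),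
    G.map D = Ysp p.1 p.2 * G ∧ T.map D = z • T

/-- the directions in which `c` (lower triangular) and `ε` see different eigenvalues -/
def Vd {m : ℕ} {L : Type} [Field L] (ε : L) (c : Matrix (Fin m) (Fin m) L) :
    Submodule L (Matrix (Fin m) (Fin m) L × Matrix (Fin m) (Fin m) L) where
  carrier := {p | p.2ᵀ = p.2 ∧ (∀ i j, p.1 i j ≠ 0 → i < j ∧ c i i ≠ c j j) ∧ ∀ i j, p.2 i j ≠ 0 → c i i ≠ ε * c j j}
  add_mem' := by
    rintro p q ⟨h1, h2, h3⟩ ⟨h4, h5, h6⟩
    refine ⟨by rw [Prod.snd_add, transpose_add, h1, h4], fun i j h => ?_, fun i j h => ?_⟩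
    · by_cases hp : p.1 i j = 0
      · refine h5 i j fun hq => h ?_
        rw [Prod.fst_add, Matrix.add_apply, hp, hq, add_zero]
      · exact h2 i j hp
    · by_cases hp : p.2 i j = 0
      · refine h6 i j fun hq => h ?_
        rw [Prod.snd_add, Matrix.add_apply, hp, hq, add_zero]
      · exact h3 i j hp
  zero_mem' := ⟨transpose_zero, fun _ _ h => absurd rfl h, fun _ _ h => absurd rfl h⟩
  smul_mem' := by
    rintro a p ⟨h1, h2, h3⟩
    refine ⟨by rw [Prod.smul_snd, transpose_smul, h1], fun i j h => h2 i j fun hp => h ?_, fun i j h => h3 i j fun hp => h ?_⟩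
    · rw [Prod.smul_fst, Matrix.smul_apply, hp, smul_zero]
    · rw [Prod.smul_snd, Matrix.smul_apply, hp, smul_zero]

/-- INJ: injectivity of the bracket modulo lower triangular matrices (`ε = ±1`) -/
def T_INJ : Prop := ∀ (L : Type) [Field L] (m : ℕ) (ε : L), ε * ε = 1 → ∀ c b : Matrix (Fin m) (Fin m) L,
  (∀ i j, i < j → c i j = 0) → ∀ p ∈ Vd ε c,
  (∀ i j, (Ysp p.1 p.2 * fromBlocks c 0 b (ε • cᵀ) - fromBlocks c 0 b (ε • cᵀ) * Ysp p.1 p.2) (Sum.inl i) (Sum.inr j) = 0) →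
  (∀ i j, i < j →
    (Ysp p.1 p.2 * fromBlocks c 0 b (ε • cᵀ) - fromBlocks c 0 b (ε • cᵀ) * Ysp p.1 p.2) (Sum.inl i) (Sum.inl j) = 0) →
  p = 0

/-- DIMS: self-adjoint case, `m ≥ 4` -/
def T_DIMS : Prop := ∀ (L : Type) [Field L] (m : ℕ), 4 ≤ m → ∀ c : Matrix (Fin m) (Fin m) L,
  (∃ i j, c i i ≠ c j j) → m + 2 ≤ Module.finrank L (Vd 1 c)

/-- DIMA: anti-self-adjoint case, `m ≥ 3` -/
def T_DIMA : Prop := ∀ (L : Type) [Field L] [CharZero L] (m : ℕ), 3 ≤ m → ∀ c : Matrix (Fin m) (Fin m) L,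
  (∃ a : L, a ≠ 0 ∧ ∀ i, c i i * c i i = a) → m + 2 ≤ Module.finrank L (Vd (-1) c)

/-- ONE: no `(anti-)self-adjoint` endomorphism over `k` -/
def T_ONE : Prop := ∀ (k L : Type) [Field k] [Field L] [Algebra k L] [CharZero L] (m : ℕ) (ι : Type) [Fintype ι]
  [DecidableEq ι] (G : Matrix (S m) (S m) L) (T : Matrix (S m) ι L), Dat k L m G T →
  ∀ (ε : L), ε * ε = 1 → ∀ (a : Matrix ι ι k) (c b : Matrix (Fin m) (Fin m) L), (∀ i j, i < j → c i j = 0) →
  G * T * a.map (algebraMap k L) = fromBlocks c 0 b (ε • cᵀ) * (G * T) → Module.finrank L (Vd ε c) ≤ m + 1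

/-- END: an endomorphism over `k` with an adjoint over `k` has only one eigenvalue (`m ≥ 4`) -/
def T_END : Prop := ∀ (k L : Type) [Field k] [Field L] [Algebra k L] [CharZero L] (m : ℕ), 4 ≤ m → ∀ (ι : Type) [Fintype ι]
  [DecidableEq ι] (G : Matrix (S m) (S m) L) (T : Matrix (S m) ι L), Dat k L m G T →
  ∀ (a a' : Matrix ι ι k) (c b d : Matrix (Fin m) (Fin m) L), (∀ i j, i < j → c i j = 0) → (∀ i j, j < i → d i j = 0) →
  G * T * a.map (algebraMap k L) = fromBlocks c 0 b d * (G * T) →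
  G * T * a'.map (algebraMap k L) = fromBlocks dᵀ 0 (-bᵀ) cᵀ * (G * T) →
  ∃ σ : L, ∀ i, c i i = σ ∧ d i i = σ

/-- STEP: no step of the flag is defined over `k` (`m ≥ 3`): the first `p` rows of `G T` do not span a subspace defined
over `k` -/
def T_STEP : Prop := ∀ (k L : Type) [Field k] [Field L] [Algebra k L] [CharZero L] (m : ℕ), 3 ≤ m → ∀ (ι : Type) [Fintype ι]
  [DecidableEq ι] (G : Matrix (S m) (S m) L) (T : Matrix (S m) ι L), Dat k L m G T →
  ∀ p : ℕ, 1 ≤ p → p ≤ m → ∀ (x : Fin p → ι → k) (e e' : Fin p → Fin p → L),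
  (∀ (i : Fin m) (hi : (i : ℕ) < p), (G * T) (Sum.inl i) = ∑ j, e ⟨i, hi⟩ j • fun l => algebraMap k L (x j l)) →
  (∀ j : Fin p, (fun l => algebraMap k L (x j l)) = ∑ i : Fin m, if h : (i : ℕ) < p then e' j ⟨i, h⟩ • (G * T) (Sum.inl i) else 0) →
  False

/-- ULT: the field of germs of sequences of complex numbers along a nonprincipal ultrafilter, and the subfield of germs
of sequences with values in `K i` -/
noncomputable abbrev UL : Type := Filter.Germ (Filter.hyperfilter ℕ : Filter ℕ) ℂ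

noncomputable def UK (K : ℕ → IntermediateField ℚ ℂ) : Subfield UL where
  carrier := {x | ∃ f : ℕ → ℂ, (∀ i, f i ∈ K i) ∧ x = (f : Filter.Germ (Filter.hyperfilter ℕ : Filter ℕ) ℂ)}
  mul_mem' := by
    rintro _ _ ⟨f, hf, rfl⟩ ⟨g, hg, rfl⟩
    exact ⟨f * g, fun i => (K i).mul_mem (hf i) (hg i), rfl⟩
  one_mem' := ⟨1, fun i => (K i).one_mem, rfl⟩
  add_mem' := by
    rintro _ _ ⟨f, hf, rfl⟩ ⟨g, hg, rfl⟩
    exact ⟨f + g, fun i => (K i).add_mem (hf i) (hg i), rfl⟩
  zero_mem' := ⟨0, fun i => (K i).zero_mem, rfl⟩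
  neg_mem' := by
    rintro _ ⟨f, hf, rfl⟩
    exact ⟨-f, fun i => (K i).neg_mem (hf i), rfl⟩
  inv_mem' := by
    rintro _ ⟨f, hf, rfl⟩
    exact ⟨f⁻¹, fun i => (K i).inv_mem (hf i), rfl⟩

/-- the germ of a sequence -/
noncomputable def gm (f : ℕ → ℂ) : UL := (f : Filter.Germ (Filter.hyperfilter ℕ : Filter ℕ) ℂ)

/-- REL: relations of bounded degree pass to the ultraproduct -/
def T_REL : Prop := ∀ (ι : Type) [Fintype ι] (K : ℕ → IntermediateField ℚ ℂ) (x : ℕ → ι → ℂ) (Zs : Set (ι → ℂ)),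
  (∀ d : ℕ, ∃ i0 : ℕ, ∀ i, i0 ≤ i → ∀ P : MvPolynomial ι (K i), P.totalDegree ≤ d →
    MvPolynomial.aeval (x i) P = 0 → ∀ g ∈ Zs, MvPolynomial.aeval g P = 0) →
  ∀ P : MvPolynomial ι (UK K), MvPolynomial.aeval (fun j => gm fun i => x i j) P = 0 →
    ∀ g : ι → ℕ → ℂ, (∀ᶠ i in (Filter.hyperfilter ℕ : Filter ℕ), (fun j => g j i) ∈ Zs) →
      MvPolynomial.aeval (fun j => gm (g j)) P = 0

end Pool.Agent.Y119.HG
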