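import Pool.Agent.Y119.HG.DatU

/-!
# Project HG: the theorems in matrix form
-/

set_option autoImplicit false

open Matrix Filter Pool.Agent.Y119.HY Pool.Agent.Y119.HZ Pool.Agent.Y118.CM

namespace Pool.Agent.Y119.HG

theorem t_M1 (hDER : T_DER) (hTAN : T_TAN) (hREL : T_REL) (hGEN : T_GEN) (hSYM : T_SYM) (hLIM : T_LIM) (hRM : T_RM)
    (hTT : T_TT) (hEND : T_END) : T_M1 := by
  intro m hm β hβ D
  by_contra hcon
  push Not at hcon
  choose t ht K hK hKD C M Q s κ hC hs hM hQ a a' c b d hc hd h1 h2 h3 using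
    fun i : ℕ => hcon (max i 2) (le_max_right _ _)
  have hdat := dat_of hDER hTAN hREL hGEN hSYM hLIM hRM hTT (by omega) hβ (D := D) (t := t)
    (fun i => (le_max_left _ _).trans (ht i)) (fun i => (le_max_right _ _).trans (ht i)) (K := K) hK hKD hC hs hM hQ
  have hW : ∀ i, Gt β (t i) * (Rm m ℂ * Tt (t i) (C i)) = Gt β (t i) * (Rm m ℂ * Tt (t i) (C i)) := fun _ => rfl
  obtain ⟨σ, hσ⟩ := hEND (UK K) UL m hm (Fin (2 * m)) _ _ hdat (kM a) (kM a') (gM c) (gM b) (gM d)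
    (fun i j hij => by
      rw [gM_apply]
      have : (fun l => c l i j) = 0 := funext fun l => hc l i j hij
      rw [this, gm_zero])
    (fun i j hij => by
      rw [gM_apply]
      have : (fun l => d l i j) = 0 := funext fun l => hd l i j hij
      rw [this, gm_zero])
    (by
      rw [kM_map, ← gM_zero, ← gM_blocks, ← gM_mul, ← gM_mul, ← gM_mul]
      congr 1
      funext i
      exact h1 i)
    (by
      rw [kM_map, ← gM_zero, ← gM_transpose, ← gM_transpose, ← gM_transpose, ← gM_neg, ← gM_blocks, ← gM_mul, ← gM_mul,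
        ← gM_mul]
      congr 1
      funext i
      exact h2 i)
  have hm0 : 0 < m := by omega
  have h4 : ∀ j : Fin m, ∀ᶠ i in (hyperfilter ℕ : Filter ℕ), c i j j = c i ⟨0, hm0⟩ ⟨0, hm0⟩ ∧ d i j j = c i ⟨0, hm0⟩ ⟨0, hm0⟩ := by
    intro j
    have h5 : gm (fun i => c i j j) = gm fun i => c i ⟨0, hm0⟩ ⟨0, hm0⟩ := (hσ j).1.trans (hσ ⟨0, hm0⟩).1.symm
    have h6 : gm (fun i => d i j j) = gm fun i => c i ⟨0, hm0⟩ ⟨0, hm0⟩ := (hσ j).2.trans (hσ ⟨0, hm0⟩).1.symm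
    exact (gm_ext.1 h5).and (gm_ext.1 h6)
  obtain ⟨i, hi⟩ := (eventually_all.2 h4).exists
  obtain ⟨j, hj⟩ := h3 i (c i ⟨0, hm0⟩ ⟨0, hm0⟩)
  exact hj (hi j).1 (hi j).2

theorem t_M2 (hDER : T_DER) (hTAN : T_TAN) (hREL : T_REL) (hGEN : T_GEN) (hSYM : T_SYM) (hLIM : T_LIM) (hRM : T_RM)
    (hTT : T_TT) (hSTEP : T_STEP) : T_M2 := by
  intro m hm β hβ D
  -- one step
  have key : ∀ p : ℕ, 1 ≤ p → p ≤ m → ∃ t0 : ℕ, 2 ≤ t0 ∧ ∀ t : ℕ, t0 ≤ t →
      ∀ K : IntermediateField ℚ ℂ, FiniteDimensional ℚ K → Module.finrank ℚ K ≤ D →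
      ∀ (C : Matrix (Fin (2 * m)) (Fin (2 * m)) ℂ) (M Q : Matrix (Fin (2 * m)) (Fin (2 * m)) ℚ) (s κ : ℂ), C.det ≠ 0 → s ≠ 0 →
      C * cm M = s • (cm (Am (2 * m)) * C) → Cᵀ * cm (J0 (2 * m)) * C = κ • cm Q →
      ∀ (x : Matrix (Fin p) (Fin (2 * m)) K) (e e' : Matrix (Fin p) (Fin p) ℂ),
      (∀ (i : Fin m) (hi : (i : ℕ) < p), (Gt β t * (Rm m ℂ * Tt t C)) (Sum.inl i) =
        ∑ j, e ⟨i, hi⟩ j • fun l => ((x j l : K) : ℂ)) →
      (∀ j : Fin p, (fun l => ((x j l : K) : ℂ)) = ∑ i : Fin m, if h : (i : ℕ) < p then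
        e' j ⟨i, h⟩ • (Gt β t * (Rm m ℂ * Tt t C)) (Sum.inl i) else 0) →
      False := by
    intro p hp1 hpm
    by_contra hcon
    push Not at hcon
    choose t ht K hK hKD C M Q s κ hC hs hM hQ x e e' h1 h2 _ using fun i : ℕ => hcon (max i 2) (le_max_right _ _)
    have hdat := dat_of hDER hTAN hREL hGEN hSYM hLIM hRM hTT (by omega) hβ (D := D) (t := t)
      (fun i => (le_max_left _ _).trans (ht i)) (fun i => (le_max_right _ _).trans (ht i)) (K := K) hK hKD hC hs hM hQ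
    refine hSTEP (UK K) UL m hm (Fin (2 * m)) _ _ hdat p hp1 hpm (kM x) (gM e) (gM e') ?_ ?_
    · intro i hi
      funext l
      rw [← gM_mul, gM_apply]
      have h3 : ∀ r, (Gt β (t r) * (Rm m ℂ * Tt (t r) (C r))) (Sum.inl i) l = ∑ j, e r ⟨i, hi⟩ j * ((x r j l : K r) : ℂ) := by
        intro r
        have := congrFun (h1 r i hi) l
        rw [this, Finset.sum_apply]
        rfl
      simp only [h3]
      rw [Finset.sum_apply]
      have h4 : (fun r => ∑ j, e r ⟨i, hi⟩ j * ((x r j l : K r) : ℂ)) = ∑ j, (fun r => e r ⟨i, hi⟩ j) * fun r => ((x r j l : K r) : ℂ) := by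
        funext r
        rw [Finset.sum_apply]
        rfl
      rw [h4, gm_eq, map_sum]
      exact Finset.sum_congr rfl fun j _ => map_mul _ _ _
    · intro j
      funext l
      have h3 : ∀ r, ((x r j l : K r) : ℂ) = ∑ i : Fin m, if h : (i : ℕ) < p then
          e' r j ⟨i, h⟩ * (Gt β (t r) * (Rm m ℂ * Tt (t r) (C r))) (Sum.inl i) l else 0 := by
        intro r
        have := congrFun (h2 r j) l
        rw [this, Finset.sum_apply]
        refine Finset.sum_congr rfl fun i _ => ?_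
        split_ifs
        · rfl
        · rfl
      show gm (fun r => ((x r j l : K r) : ℂ)) = _
      simp only [h3]
      rw [Finset.sum_apply]
      have h4 : (fun r => ∑ i : Fin m, if h : (i : ℕ) < p then
          e' r j ⟨i, h⟩ * (Gt β (t r) * (Rm m ℂ * Tt (t r) (C r))) (Sum.inl i) l else 0) = ∑ i : Fin m, if h : (i : ℕ) < p then
          (fun r => e' r j ⟨i, h⟩) * fun r => (Gt β (t r) * (Rm m ℂ * Tt (t r) (C r))) (Sum.inl i) l else 0 := by
        funext r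
        rw [Finset.sum_apply]
        refine Finset.sum_congr rfl fun i _ => ?_
        split_ifs
        · rfl
        · rfl
      rw [h4, gm_eq, map_sum]
      refine Finset.sum_congr rfl fun i _ => ?_
      by_cases hi : (i : ℕ) < p
      · rw [dif_pos hi, dif_pos hi, map_mul, ← gM_mul]
        rfl
      · rw [dif_neg hi, dif_neg hi, map_zero]
        rfl
  -- the maximum
  have key2 : ∀ p : ℕ, ∃ t0 : ℕ, 2 ≤ t0 ∧ (1 ≤ p → p ≤ m → ∀ t : ℕ, t0 ≤ t →
      ∀ K : IntermediateField ℚ ℂ, FiniteDimensional ℚ K → Module.finrank ℚ K ≤ D →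
      ∀ (C : Matrix (Fin (2 * m)) (Fin (2 * m)) ℂ) (M Q : Matrix (Fin (2 * m)) (Fin (2 * m)) ℚ) (s κ : ℂ), C.det ≠ 0 → s ≠ 0 →
      C * cm M = s • (cm (Am (2 * m)) * C) → Cᵀ * cm (J0 (2 * m)) * C = κ • cm Q →
      ∀ (x : Matrix (Fin p) (Fin (2 * m)) K) (e e' : Matrix (Fin p) (Fin p) ℂ),
      (∀ (i : Fin m) (hi : (i : ℕ) < p), (Gt β t * (Rm m ℂ * Tt t C)) (Sum.inl i) =
        ∑ j, e ⟨i, hi⟩ j • fun l => ((x j l : K) : ℂ)) →
      (∀ j : Fin p, (fun l => ((x j l : K) : ℂ)) = ∑ i : Fin m, if h : (i : ℕ) < p then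
        e' j ⟨i, h⟩ • (Gt β t * (Rm m ℂ * Tt t C)) (Sum.inl i) else 0) →
      False) := by
    intro p
    by_cases h : 1 ≤ p ∧ p ≤ m
    · obtain ⟨t0, h2, h3⟩ := key p h.1 h.2
      exact ⟨t0, h2, fun _ _ => h3⟩
    · exact ⟨2, le_rfl, fun h1 h2 => absurd ⟨h1, h2⟩ h⟩
  choose t0 h2 h3 using key2
  refine ⟨(Finset.range (m + 1)).sup t0 + 2, by omega, fun t ht K hK hKD C M Q s κ hC hs hM hQ p hp1 hpm x e e' e1 e2 => ?_⟩
  have h4 : t0 p ≤ (Finset.range (m + 1)).sup t0 := Finset.le_sup (Finset.mem_range.2 (by omega))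
  exact h3 p hp1 hpm t (by omega) K hK hKD C M Q s κ hC hs hM hQ x e e' e1 e2

end Pool.Agent.Y119.HG
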