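import Pool.Agent.Y119.HG.Ult

/-!
# Project HG: the period matrices at `1 / t`, `t → ∞`, give data over the ultraproduct
-/

set_option autoImplicit false

open Matrix Filter Pool.Agent.Y119.HY Pool.Agent.Y119.HZ Pool.Agent.Y118.CM

namespace Pool.Agent.Y119.HG

instance : CharZero UL :=
  charZero_of_injective_ringHom (f := gh.comp (Pi.constRingHom ℕ ℂ)) (RingHom.injective _)

lemma cm_Am (n : ℕ) : cm (Am n) = Nn n ℂ := by
  ext i j
  rw [cm_apply]
  unfold Am Nn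
  rw [Matrix.of_apply, Matrix.of_apply]
  split_ifs <;> simp

lemma Om_sq (m : ℕ) (L : Type) [Field L] : Om m L * Om m L = -1 := by
  unfold Om
  rw [fromBlocks_multiply, ← fromBlocks_one, fromBlocks_neg]
  simp

theorem dat_of (hDER : T_DER) (hTAN : T_TAN) (hREL : T_REL) (hGEN : T_GEN) (hSYM : T_SYM) (hLIM : T_LIM) (hRM : T_RM)
    (hTT : T_TT) {m : ℕ} (hm : 1 ≤ m) {β : Fin m → ℚ} (hβ : ∀ j, ∀ a : ℤ, β j ≠ a) {D : ℕ} {t : ℕ → ℕ} (ht : ∀ i, i ≤ t i)
    (ht2 : ∀ i, 2 ≤ t i) {K : ℕ → IntermediateField ℚ ℂ} (hK : ∀ i, FiniteDimensional ℚ (K i))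
    (hKD : ∀ i, Module.finrank ℚ (K i) ≤ D) {C : ℕ → Matrix (Fin (2 * m)) (Fin (2 * m)) ℂ}
    {M Q : ℕ → Matrix (Fin (2 * m)) (Fin (2 * m)) ℚ} {s κ : ℕ → ℂ} (hC : ∀ i, (C i).det ≠ 0) (hs : ∀ i, s i ≠ 0)
    (hM : ∀ i, C i * cm (M i) = s i • (cm (Am (2 * m)) * C i)) (hQ : ∀ i, (C i)ᵀ * cm (J0 (2 * m)) * C i = κ i • cm (Q i)) :
    Dat (UK K) UL m (gM fun i => Gt β (t i)) (gM fun i => Rm m ℂ * Tt (t i) (C i)) := by
  classical
  obtain ⟨r1, r2, r3, r4⟩ := hRM UL m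
  set G : Matrix (S m) (S m) UL := gM fun i => Gt β (t i) with hG
  -- the symplectic relation
  have hsym : G * Om m UL * Gᵀ = Om m UL := by
    rw [hG, ← gM_Om, ← gM_transpose, ← gM_mul, ← gM_mul]
    congr 1
    funext i
    exact hSYM m hm β hβ (t i) (ht2 i)
  -- the relations
  have hrel : ∀ P : MvPolynomial (S m × S m) (UK K), MvPolynomial.aeval (fun x => G x.1 x.2) P = 0 →
      ∀ g : Matrix (S m) (S m) UL, g * Om m UL * gᵀ = Om m UL → MvPolynomial.aeval (fun x => g x.1 x.2) P = 0 := by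
    intro P hP g hg
    have h1 := hREL (S m × S m) K (fun i x => Gt β (t i) x.1 x.2)
      {g | (Matrix.of fun a b => g (a, b)) * Om m ℂ * (Matrix.of fun a b => g (a, b))ᵀ = Om m ℂ} (fun d => by
        obtain ⟨t0, h⟩ := hGEN m hm β hβ D d
        refine ⟨t0, fun i hi P hPd hP0 g hg => ?_⟩
        exact h (t i) (hi.trans (ht i)) (K i) (hK i) (hKD i) P hPd hP0 (Matrix.of fun a b => g (a, b)) hg) P hP
    choose f hf using fun x : S m × S m => gm_surj (g x.1 x.2)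
    have h2 : gM (fun i => (Matrix.of fun a b => f (a, b) i : Matrix (S m) (S m) ℂ)) = g := by
      ext a b
      exact hf (a, b)
    have h3 : ∀ᶠ i in (hyperfilter ℕ : Filter ℕ), (fun j => f j i) ∈
        {g : S m × S m → ℂ | (Matrix.of fun a b => g (a, b)) * Om m ℂ * (Matrix.of fun a b => g (a, b))ᵀ = Om m ℂ} := by
      have h4 : gM (fun i => (Matrix.of fun a b => f (a, b) i : Matrix (S m) (S m) ℂ) * Om m ℂ *
          (Matrix.of fun a b => f (a, b) i : Matrix (S m) (S m) ℂ)ᵀ) = gM fun _ => Om m ℂ := by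
        rw [gM_mul, gM_mul, gM_transpose, gM_Om, h2, hg]
      have h5 : ∀ a b, ∀ᶠ i in (hyperfilter ℕ : Filter ℕ), ((Matrix.of fun a b => f (a, b) i : Matrix (S m) (S m) ℂ) * Om m ℂ *
          (Matrix.of fun a b => f (a, b) i : Matrix (S m) (S m) ℂ)ᵀ) a b = Om m ℂ a b := fun a b =>
        gm_ext.1 (congrFun (congrFun h4 a) b)
      have h6 : ∀ᶠ i in (hyperfilter ℕ : Filter ℕ), ∀ a b, ((Matrix.of fun a b => f (a, b) i : Matrix (S m) (S m) ℂ) * Om m ℂ *
          (Matrix.of fun a b => f (a, b) i : Matrix (S m) (S m) ℂ)ᵀ) a b = Om m ℂ a b :=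
        eventually_all.2 fun a => eventually_all.2 fun b => h5 a b
      filter_upwards [h6] with i hi
      exact Matrix.ext hi
    have h7 := h1 f h3
    rw [← h7]
    refine congrArg (fun z => MvPolynomial.aeval z P) (funext fun x => ?_)
    exact (hf x).symm
  -- the limit matrix
  set T : Matrix (Fin (2 * m)) (Fin (2 * m)) UL := gM fun i => Tt (t i) (C i) with hT
  have htt := fun i => hTT m hm (t i) (C i) (cm (M i)) (cm (Q i)) (s i) (κ i) (hC i) (hM i) (hQ i)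
  have hTd : T.det ≠ 0 := by
    rw [hT, gM_det]
    exact gm_ne fun i => (htt i).1
  have hRT : (gM fun i => Rm m ℂ * Tt (t i) (C i)) = Rm m UL * T := by rw [gM_mul, gM_Rm]
  rw [hRT]
  refine ⟨fun X Z hZ => ?_, ?_, ?_, ?_⟩
  · obtain ⟨D', hD'⟩ := hDER (UK K) UL (S m × S m) (fun x => G x.1 x.2) (fun x => (Ysp X Z * G) x.1 x.2) fun P hP =>
      hTAN (UK K) UL m G hsym hrel P hP X Z hZ
    exact ⟨D', by
      ext a b
      exact hD' (a, b)⟩
  · obtain ⟨π, hπ⟩ := hLIM (UK K) UL m hm T (kM fun i => (M i).map (algebraMap ℚ (K i)))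
      (kM fun i => (Q i).map (algebraMap ℚ (K i))) (gm s) (gm κ) hTd (gm_ne hs) (by
        rw [kM_rat, ← gM_Nn, hT, ← gM_mul, ← gM_mul, ← gM_smul]
        congr 1
        funext i
        exact (htt i).2.1) (by
        rw [kM_rat, ← gM_Jn, hT, ← gM_transpose, ← gM_mul, ← gM_mul, ← gM_smul]
        congr 1
        funext i
        exact (htt i).2.2.1)
    let μ : Matrix (S m) (Fin (2 * m)) UL →ₗ[UL] Matrix (Fin (2 * m)) (Fin (2 * m)) UL :=
      { toFun := fun X => (Rm m UL)ᵀ * X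
        map_add' := fun X Y => Matrix.mul_add _ _ _
        map_smul' := fun c X => Matrix.mul_smul _ _ _ }
    have hμ : ∀ X, μ X = (Rm m UL)ᵀ * X := fun _ => rfl
    refine ⟨π.comp μ, fun D' h0 => ?_⟩
    have h1 : (Rm m UL * T).map D' = Rm m UL * T.map D' := by
      ext a b
      rw [Matrix.map_apply, Matrix.mul_apply, Matrix.mul_apply, map_sum]
      refine Finset.sum_congr rfl fun l _ => ?_
      rw [D'.leibniz, Rm_der, smul_zero, add_zero, smul_eq_mul, Matrix.map_apply]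
    have h2 : π (T.map D') = 0 := by
      rw [← h0, LinearMap.comp_apply, hμ, h1, ← Matrix.mul_assoc, r2, Matrix.one_mul]
    obtain ⟨z, hz⟩ := hπ D' h2
    exact ⟨z, by rw [h1, hz, Matrix.mul_smul]⟩
  · refine ⟨Om m UL * Gᵀ * (-Om m UL), ?_⟩
    rw [← Matrix.mul_assoc, ← Matrix.mul_assoc, hsym, Matrix.mul_neg, Om_sq, neg_neg]
  · have hu : IsUnit T.det := isUnit_iff_ne_zero.2 hTd
    refine ⟨T⁻¹ * (Rm m UL)ᵀ, ?_, ?_⟩
    · rw [Matrix.mul_assoc, ← Matrix.mul_assoc T, Matrix.mul_nonsing_inv _ hu, Matrix.one_mul, r1]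
    · rw [Matrix.mul_assoc, ← Matrix.mul_assoc (Rm m UL)ᵀ, r2, Matrix.one_mul, Matrix.nonsing_inv_mul _ hu]

end Pool.Agent.Y119.HG
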