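import Pool.Agent.Y118.CM.Cl
import Pool.Agent.Y118.CM.Cz
import Pool.Agent.Y119.HG.Defs

/-!
# Project HG: definitions and statements over the complex numbers
-/

set_option autoImplicit false

open Matrix Pool.Agent.Y119.HY Pool.Agent.Y119.HZ Pool.Agent.Y118.CM

namespace Pool.Agent.Y119.HG

/-- the generic part of the period matrix at `1 / t` (preserves `Om`) -/
noncomputable def Gt {m : ℕ} (β : Fin m → ℚ) (t : ℕ) : Matrix (S m) (S m) ℂ :=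
  Rm m ℂ * (cm (DN β) * Hf (Hc (2 * m) (QB β)) (((1 / (t : ℝ) : ℝ)) : ℂ) * cm (DN β)⁻¹) * (Rm m ℂ)ᵀ

/-- the limit part -/
noncomputable def Tt {m : ℕ} (t : ℕ) (C : Matrix (Fin (2 * m)) (Fin (2 * m)) ℂ) : Matrix (Fin (2 * m)) (Fin (2 * m)) ℂ :=
  E (cm (Am (2 * m))) (-((Real.log t : ℝ) : ℂ)) * C

/-- GEN: all relations of bounded degree over number fields of bounded degree between the entries of `Gt` hold on the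
symplectic group -/
def T_GEN : Prop := ∀ (m : ℕ), 1 ≤ m → ∀ β : Fin m → ℚ, (∀ j, ∀ a : ℤ, β j ≠ a) → ∀ D d : ℕ, ∃ t0 : ℕ, ∀ t : ℕ, t0 ≤ t →
  ∀ K : IntermediateField ℚ ℂ, FiniteDimensional ℚ K → Module.finrank ℚ K ≤ D →
  ∀ P : MvPolynomial (S m × S m) K, P.totalDegree ≤ d → MvPolynomial.aeval (fun x => Gt β t x.1 x.2) P = 0 →
  ∀ g : Matrix (S m) (S m) ℂ, g * Om m ℂ * gᵀ = Om m ℂ → MvPolynomial.aeval (fun x => g x.1 x.2) P = 0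

/-- SYM -/
def T_SYM : Prop := ∀ (m : ℕ), 1 ≤ m → ∀ β : Fin m → ℚ, (∀ j, ∀ a : ℤ, β j ≠ a) → ∀ t : ℕ, 2 ≤ t →
  Gt β t * Om m ℂ * (Gt β t)ᵀ = Om m ℂ

/-- ROW: the first rows of the period matrix -/
def T_ROW : Prop := ∀ (m : ℕ), 1 ≤ m → ∀ β : Fin m → ℚ, (∀ j, ∀ a : ℤ, β j ≠ a) → ∀ t : ℕ, 2 ≤ t →
  ∀ (C : Matrix (Fin (2 * m)) (Fin (2 * m)) ℂ) (i : Fin m),
    perr β t i ᵥ* C = (Gt β t * (Rm m ℂ * Tt t C)) (Sum.inl i)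

/-- RM: the change of basis -/
def T_RM : Prop := ∀ (L : Type) [Field L] (m : ℕ), Rm m L * (Rm m L)ᵀ = 1 ∧ (Rm m L)ᵀ * Rm m L = 1 ∧
  Rm m L * Jn (2 * m) L * (Rm m L)ᵀ = Om m L ∧ Jn (2 * m) L * Jn (2 * m) L = -1

/-- TT: the relations for the limit part -/
def T_TT : Prop := ∀ (m : ℕ), 1 ≤ m → ∀ (t : ℕ) (C M Q : Matrix (Fin (2 * m)) (Fin (2 * m)) ℂ) (s κ : ℂ), C.det ≠ 0 →
  C * M = s • (cm (Am (2 * m)) * C) → Cᵀ * cm (J0 (2 * m)) * C = κ • Q →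
  (Tt t C).det ≠ 0 ∧ Tt t C * M = s • (Nn (2 * m) ℂ * Tt t C) ∧ (Tt t C)ᵀ * Jn (2 * m) ℂ * Tt t C = κ • Q ∧
  Tt t C * (C⁻¹ * Jn (2 * m) ℂ * (C⁻¹)ᵀ) * (Tt t C)ᵀ = Jn (2 * m) ℂ

/-- the flag attached to an invertible matrix `W` and a form `P` on rows: the first steps are spanned by the first rows
of `W`, the other ones are orthogonal complements -/
def Fl {m n : ℕ} (W : Matrix (S m) (Fin n) ℂ) (P : Matrix (Fin n) (Fin n) ℂ) (p : ℕ) : Submodule ℂ (Fin n → ℂ) :=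
  if m ≤ p then Submodule.span ℂ {v | ∃ i : Fin m, (i : ℕ) + p < 2 * m ∧ v = W (Sum.inl i)}
  else
    { carrier := {v | ∀ i : Fin m, (i : ℕ) < p → v ⬝ᵥ (P *ᵥ W (Sum.inl i)) = 0}
      add_mem' := fun {a b} ha hb i hi => by rw [add_dotProduct, ha i hi, hb i hi, add_zero]
      zero_mem' := fun i _ => zero_dotProduct _
      smul_mem' := fun c v hv i hi => by rw [smul_dotProduct, hv i hi, smul_zero] }

/-- BLK: endomorphisms of the flag are block triangular -/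
def T_BLK : Prop := ∀ (m n : ℕ) (W : Matrix (S m) (Fin n) ℂ) (W' : Matrix (Fin n) (S m) ℂ) (P : Matrix (Fin n) (Fin n) ℂ),
  W * W' = 1 → W' * W = 1 → W * P * Wᵀ = Om m ℂ → ∀ a : Matrix (Fin n) (Fin n) ℂ,
  (∀ p, ∀ v ∈ Fl W P p, v ᵥ* a ∈ Fl W P p) →
  ∃ c b d : Matrix (Fin m) (Fin m) ℂ, (∀ i j, i < j → c i j = 0) ∧ (∀ i j, j < i → d i j = 0) ∧
    W * a = fromBlocks c 0 b d * W

/-- ADJ: the adjoint -/
def T_ADJ : Prop := ∀ (m n : ℕ) (W : Matrix (S m) (Fin n) ℂ) (W' : Matrix (Fin n) (S m) ℂ) (P Q : Matrix (Fin n) (Fin n) ℂ) (κ : ℂ),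
  W * W' = 1 → W' * W = 1 → W * P * Wᵀ = Om m ℂ → P * Q = κ • (1 : Matrix (Fin n) (Fin n) ℂ) → κ ≠ 0 →
  ∀ (a : Matrix (Fin n) (Fin n) ℂ) (c b d : Matrix (Fin m) (Fin m) ℂ), W * a = fromBlocks c 0 b d * W →
    W * (Q⁻¹ * aᵀ * Q) = fromBlocks dᵀ 0 (-bᵀ) cᵀ * W

/-- CHP: the characteristic polynomial -/
def T_CHP : Prop := ∀ (m n : ℕ) (W : Matrix (S m) (Fin n) ℂ) (W' : Matrix (Fin n) (S m) ℂ),
  W * W' = 1 → W' * W = 1 → ∀ (a : Matrix (Fin n) (Fin n) ℂ) (c b d : Matrix (Fin m) (Fin m) ℂ) (σ : ℂ),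
  (∀ i j, i < j → c i j = 0) → (∀ i j, j < i → d i j = 0) → W * a = fromBlocks c 0 b d * W →
  (∀ i, c i i = σ ∧ d i i = σ) → a.charpoly = (Polynomial.X - Polynomial.C σ) ^ n

/-- SPN: a step of the flag which is defined over `K` has a basis over `K` -/
def T_SPN : Prop := ∀ (n p : ℕ) (K : IntermediateField ℚ ℂ) (w : Fin p → Fin n → ℂ), LinearIndependent ℂ w →
  (∃ s : Set (Fin n → K), Submodule.span ℂ (Set.range w) = Submodule.span ℂ ((fun x i => ((x i : K) : ℂ)) '' s)) →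
  ∃ (x : Fin p → Fin n → K) (e e' : Matrix (Fin p) (Fin p) ℂ), (∀ i, w i = ∑ j, e i j • fun l => ((x j l : K) : ℂ)) ∧
    ∀ j, (fun l => ((x j l : K) : ℂ)) = ∑ i, e' j i • w i

/-- M1: the matrix version of the theorem on endomorphisms -/
def T_M1 : Prop := ∀ (m : ℕ), 4 ≤ m → ∀ β : Fin m → ℚ, (∀ j, ∀ a : ℤ, β j ≠ a) → ∀ D : ℕ, ∃ t0 : ℕ, 2 ≤ t0 ∧ ∀ t : ℕ, t0 ≤ t →
  ∀ K : IntermediateField ℚ ℂ, FiniteDimensional ℚ K → Module.finrank ℚ K ≤ D →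
  ∀ (C : Matrix (Fin (2 * m)) (Fin (2 * m)) ℂ) (M Q : Matrix (Fin (2 * m)) (Fin (2 * m)) ℚ) (s κ : ℂ), C.det ≠ 0 → s ≠ 0 →
  C * cm M = s • (cm (Am (2 * m)) * C) → Cᵀ * cm (J0 (2 * m)) * C = κ • cm Q →
  ∀ (a a' : Matrix (Fin (2 * m)) (Fin (2 * m)) K) (c b d : Matrix (Fin m) (Fin m) ℂ), (∀ i j, i < j → c i j = 0) →
  (∀ i j, j < i → d i j = 0) →
  Gt β t * (Rm m ℂ * Tt t C) * a.map (algebraMap K ℂ) = fromBlocks c 0 b d * (Gt β t * (Rm m ℂ * Tt t C)) →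
  Gt β t * (Rm m ℂ * Tt t C) * a'.map (algebraMap K ℂ) = fromBlocks dᵀ 0 (-bᵀ) cᵀ * (Gt β t * (Rm m ℂ * Tt t C)) →
  ∃ σ : ℂ, ∀ i, c i i = σ ∧ d i i = σ

/-- M2: the matrix version of the theorem on the steps -/
def T_M2 : Prop := ∀ (m : ℕ), 3 ≤ m → ∀ β : Fin m → ℚ, (∀ j, ∀ a : ℤ, β j ≠ a) → ∀ D : ℕ, ∃ t0 : ℕ, 2 ≤ t0 ∧ ∀ t : ℕ, t0 ≤ t →
  ∀ K : IntermediateField ℚ ℂ, FiniteDimensional ℚ K → Module.finrank ℚ K ≤ D →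
  ∀ (C : Matrix (Fin (2 * m)) (Fin (2 * m)) ℂ) (M Q : Matrix (Fin (2 * m)) (Fin (2 * m)) ℚ) (s κ : ℂ), C.det ≠ 0 → s ≠ 0 →
  C * cm M = s • (cm (Am (2 * m)) * C) → Cᵀ * cm (J0 (2 * m)) * C = κ • cm Q →
  ∀ p : ℕ, 1 ≤ p → p ≤ m → ∀ (x : Fin p → Fin (2 * m) → K) (e e' : Fin p → Fin p → ℂ),
  (∀ (i : Fin m) (hi : (i : ℕ) < p), (Gt β t * (Rm m ℂ * Tt t C)) (Sum.inl i) = ∑ j, e ⟨i, hi⟩ j • fun l => ((x j l : K) : ℂ)) →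
  (∀ j : Fin p, (fun l => ((x j l : K) : ℂ)) = ∑ i : Fin m, if h : (i : ℕ) < p then
    e' j ⟨i, h⟩ • (Gt β t * (Rm m ℂ * Tt t C)) (Sum.inl i) else 0) →
  False

end Pool.Agent.Y119.HG
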