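import Pool.Agent.Y119.HG.Defs2

/-!
# Project HG: the ultraproduct
-/

set_option autoImplicit false

open Matrix Filter Pool.Agent.Y119.HY Pool.Agent.Y119.HZ Pool.Agent.Y118.CM

namespace Pool.Agent.Y119.HG

/-- the germ as a ring homomorphism -/
noncomputable def gh : (ℕ → ℂ) →+* UL := Filter.Germ.coeRingHom _

lemma gm_eq (f : ℕ → ℂ) : gm f = gh f := rfl

lemma gm_ext {f g : ℕ → ℂ} : gm f = gm g ↔ ∀ᶠ i in (hyperfilter ℕ : Filter ℕ), f i = g i := Filter.Germ.coe_eq

lemma gm_surj (x : UL) : ∃ f : ℕ → ℂ, gm f = x := by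
  induction x using Filter.Germ.inductionOn with
  | _ f => exact ⟨f, rfl⟩

lemma gm_ne {f : ℕ → ℂ} (h : ∀ i, f i ≠ 0) : gm f ≠ 0 := by
  intro h0
  have h1 : gm f = gm 0 := h0
  rw [gm_ext] at h1
  obtain ⟨i, hi⟩ := h1.exists
  exact h i hi

lemma gm_zero : gm 0 = 0 := rfl
lemma gm_one : gm 1 = 1 := rfl

/-- germs of sequences of matrices -/
noncomputable def gM {α β : Type} (A : ℕ → Matrix α β ℂ) : Matrix α β UL := Matrix.of fun x y => gm fun i => A i x y

lemma gM_apply {α β : Type} (A : ℕ → Matrix α β ℂ) (x : α) (y : β) : gM A x y = gm fun i => A i x y := rfl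

lemma gM_mul {α β γ : Type} [Fintype β] (A : ℕ → Matrix α β ℂ) (B : ℕ → Matrix β γ ℂ) :
    gM (fun i => A i * B i) = gM A * gM B := by
  ext x y
  rw [gM_apply, Matrix.mul_apply]
  simp only [gM_apply, gm_eq]
  rw [show (fun i => (A i * B i) x y) = ∑ j, (fun i => A i x j) * fun i => B i j y by
    funext i
    rw [Finset.sum_apply, Matrix.mul_apply]
    rfl, map_sum]
  exact Finset.sum_congr rfl fun j _ => map_mul _ _ _

lemma gM_add {α β : Type} (A B : ℕ → Matrix α β ℂ) : gM (fun i => A i + B i) = gM A + gM B := rfl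

lemma gM_neg {α β : Type} (A : ℕ → Matrix α β ℂ) : gM (fun i => -A i) = -gM A := rfl

lemma gM_transpose {α β : Type} (A : ℕ → Matrix α β ℂ) : gM (fun i => (A i)ᵀ) = (gM A)ᵀ := rfl

lemma gM_smul {α β : Type} (s : ℕ → ℂ) (A : ℕ → Matrix α β ℂ) : gM (fun i => s i • A i) = gm s • gM A := rfl

lemma gM_blocks {m : ℕ} (A B C D : ℕ → Matrix (Fin m) (Fin m) ℂ) :
    gM (fun i => fromBlocks (A i) (B i) (C i) (D i)) = fromBlocks (gM A) (gM B) (gM C) (gM D) := by
  ext x y
  rcases x with x | x <;> rcases y with y | y <;> rfl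

lemma gM_zero {α β : Type} : gM (fun _ => (0 : Matrix α β ℂ)) = 0 := rfl

lemma gM_det {n : ℕ} (A : ℕ → Matrix (Fin n) (Fin n) ℂ) : (gM A).det = gm fun i => (A i).det := by
  have h : gM A = gh.mapMatrix (Matrix.of fun x y => fun i => A i x y) := rfl
  rw [h, ← RingHom.map_det, gm_eq]
  congr 1
  funext i
  have h2 := RingHom.map_det (Pi.evalRingHom (fun _ : ℕ => ℂ) i) (Matrix.of fun x y => fun i => A i x y)
  exact h2

lemma gM_Om (m : ℕ) : gM (fun _ => Om m ℂ) = Om m UL := by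
  ext x y
  have h0 : gm (fun _ => (0 : ℂ)) = 0 := rfl
  have h1 : gm (fun _ => (1 : ℂ)) = 1 := rfl
  have h2 : gm (fun _ => (-1 : ℂ)) = -1 := rfl
  rw [gM_apply]
  unfold Om
  rcases x with x | x <;> rcases y with y | y
  · simp only [fromBlocks_apply₁₁, Matrix.zero_apply]
    exact h0
  · simp only [fromBlocks_apply₁₂, Matrix.one_apply]
    split_ifs
    · exact h1
    · exact h0
  · simp only [fromBlocks_apply₂₁, Matrix.neg_apply, Matrix.one_apply]
    split_ifs
    · exact h2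
    · rw [neg_zero, neg_zero]
      exact h0
  · simp only [fromBlocks_apply₂₂, Matrix.zero_apply]
    exact h0

lemma gm_pow (n : ℕ) : gm (fun _ => (-1 : ℂ) ^ n) = (-1) ^ n := by
  have h : gh ((-1 : ℕ → ℂ) ^ n) = (gh (-1)) ^ n := map_pow gh _ n
  rw [map_neg, map_one] at h
  exact h

lemma gM_Jn (n : ℕ) : gM (fun _ => Jn n ℂ) = Jn n UL := by
  ext x y
  rw [gM_apply]
  unfold Jn
  simp only [Matrix.of_apply]
  split_ifs
  · exact gm_pow _
  · exact gm_zero

lemma gM_Nn (n : ℕ) : gM (fun _ => Nn n ℂ) = Nn n UL := by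
  ext x y
  rw [gM_apply]
  unfold Nn
  simp only [Matrix.of_apply]
  split_ifs
  · exact gm_one
  · exact gm_zero

lemma gM_Rm (m : ℕ) : gM (fun _ => Rm m ℂ) = Rm m UL := by
  ext x y
  rw [gM_apply]
  unfold Rm
  rcases x with x | x
  · simp only [Matrix.of_apply]
    split_ifs
    · exact gm_one
    · exact gm_zero
  · simp only [Matrix.of_apply]
    split_ifs
    · exact gm_pow _
    · exact gm_zero

/-- entries of `Rm` are killed by derivations -/
lemma Rm_der {k L : Type} [Field k] [Field L] [Algebra k L] (D : Derivation k L L) (m : ℕ) (x : S m) (y : Fin (2 * m)) :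
    D (Rm m L x y) = 0 := by
  have h1 : D (-1 : L) = 0 := by rw [map_neg, D.map_one_eq_zero, neg_zero]
  unfold Rm
  rcases x with x | x
  · simp only [Matrix.of_apply]
    split_ifs
    · exact D.map_one_eq_zero
    · exact map_zero D
  · simp only [Matrix.of_apply]
    split_ifs
    · rw [D.leibniz_pow, h1, smul_zero, smul_zero]
    · exact map_zero D

/-- matrices of germs over the small field -/
noncomputable def kM {n n' : ℕ} {K : ℕ → IntermediateField ℚ ℂ} (a : (i : ℕ) → Matrix (Fin n) (Fin n') (K i)) :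
    Matrix (Fin n) (Fin n') (UK K) := Matrix.of fun x y => ⟨gm fun i => (a i x y : ℂ), fun i => (a i x y : ℂ), fun i => (a i x y).2, rfl⟩

lemma kM_map {n n' : ℕ} {K : ℕ → IntermediateField ℚ ℂ} (a : (i : ℕ) → Matrix (Fin n) (Fin n') (K i)) :
    (kM a).map (algebraMap (UK K) UL) = gM fun i => (a i).map (algebraMap (K i) ℂ) := rfl

lemma kM_rat {n : ℕ} {K : ℕ → IntermediateField ℚ ℂ} (M : ℕ → Matrix (Fin n) (Fin n) ℚ) :
    (kM (K := K) fun i => (M i).map (algebraMap ℚ (K i))).map (algebraMap (UK K) UL) = gM fun i => cm (M i) := by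
  rw [kM_map]
  congr 1

end Pool.Agent.Y119.HG
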